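import Mathlib

namespace Pool.Agent.Results.MP_43520b_al.MinGap

open Pointwise

section defs
variable {M : Type*} [Monoid M]

/-- `x` divides `y`: `y ∈ MxM`. -/
def Dv (x y : M) : Prop := ∃ u v, y = u * x * v

/-- `a` is irreducible. -/
def Irred (a : M) : Prop :=
  ¬ Dv a 1 ∧ ¬ ∃ b c, a = b * c ∧ (Dv b a ∧ ¬ Dv a b) ∧ (Dv c a ∧ ¬ Dv a c) ∧ ¬ Dv b 1 ∧ ¬ Dv c 1

/-- The word `a` of length `m` is a factorization of `x`. -/
def IsFact {m : ℕ} (a : Fin m → M) (x : M) : Prop := (∀ i, Irred (a i)) ∧ (List.ofFn a).prod = x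

/-- The word `a` of length `m` is a minimal factorization of `x`. -/
def IsMinFact {m : ℕ} (a : Fin m → M) (x : M) : Prop :=
  IsFact a x ∧ ¬ ∃ k < m, ∃ α : Fin k → M, IsFact α x ∧ ∃ τ : Fin k → Fin m,
    Function.Injective τ ∧ ∀ i, Dv (α i) (a (τ i)) ∧ Dv (a (τ i)) (α i)

/-- The set of lengths of minimal factorizations. -/
def minLengths (x : M) : Set ℕ := {m | ∃ a : Fin m → M, IsMinFact a x}

variable (M) in
/-- The union of the sets of minimal lengths that contain `k`. -/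
def minUnion (k : ℕ) : Set ℕ := {m | ∃ x : M, k ∈ minLengths x ∧ m ∈ minLengths x}

variable (M) in
/-- The reduced finitary power monoid: finite subsets that contain the identity. -/
def powOne : Submonoid (Set M) where
  carrier := {X | X.Finite ∧ (1 : M) ∈ X}
  one_mem' := ⟨Set.finite_one, Set.one_mem_one⟩
  mul_mem' := fun hX hY => ⟨hX.1.mul hY.1, by simpa using Set.mul_mem_mul hX.2 hY.2⟩

lemma dv_sub {X Y : powOne M} (h : Dv X Y) : X.1 ⊆ Y.1 := by
  obtain ⟨u, v, rfl⟩ := h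
  intro x hx
  have := Set.mul_mem_mul (Set.mul_mem_mul u.2.2 hx) v.2.2
  simpa using this

lemma dv_refl (x : M) : Dv x x := ⟨1, 1, by simp⟩

lemma eq_of_dv {X Y : powOne M} (h : Dv X Y) (h' : Dv Y X) : X = Y :=
  Subtype.ext ((dv_sub h).antisymm (dv_sub h'))

lemma eq_one_of_dv {X : powOne M} (h : Dv X 1) : X = 1 := eq_of_dv h ⟨1, X, by simp⟩

def pr (h : M) : powOne M := ⟨{1, h}, by simp, by simp⟩

lemma irred_pr {h : M} (h1 : h ≠ 1) : Irred (pr h) := by
  refine ⟨fun hd => h1 ?_, ?_⟩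
  · exact Set.mem_one.1 (dv_sub hd (by simp [pr]))
  · rintro ⟨b, c, -, ⟨hb, hb'⟩, -, hb1, -⟩
    by_cases hh : h ∈ b.1
    · apply hb'
      have : b = pr h := Subtype.ext ((dv_sub hb).antisymm (by
        rintro _ (rfl | rfl)
        · exact b.2.2
        · exact hh))
      rw [this]; exact dv_refl _
    · apply hb1
      have : b = 1 := by
        apply Subtype.ext
        ext x
        constructor
        · intro hx
          rcases dv_sub hb hx with rfl | rfl
          · exact Set.one_mem_one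
          · exact absurd hx hh
        · intro hx
          rw [Set.mem_one.1 hx]; exact b.2.2
      rw [this]; exact dv_refl _

end defs

/-- rotations of four points together with the four constant maps -/
structure H where
  v : Fin 8
deriving DecidableEq, Fintype

def mulN (x y : ℕ) : ℕ := if 4 ≤ y then y else if x < 4 then (x + y) % 4 else 4 + (x + y) % 4

instance : Monoid H where
  mul x y := ⟨Fin.ofNat 8 (mulN x.v y.v)⟩
  one := ⟨0⟩
  mul_assoc := by decide +kernel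
  one_mul := by decide +kernel
  mul_one := by decide +kernel

def rot (x h : ℕ) : ℕ := ((x <<< h) ||| (x >>> (4 - h))) &&& 15

def stp (X h : ℕ) : ℕ :=
  if h < 4 then X ||| rot (X &&& 15) h ||| (rot (X >>> 4) h <<< 4) else X ||| (1 <<< h)

def S (n : ℕ) : Set H := {h | n.testBit h.v = true}

lemma stp_spec : ∀ n < 256, n.testBit 0 = true → ∀ h : H, stp n h.v < 256 ∧
    (stp n h.v).testBit 0 = true ∧ ∀ y : H, (stp n h.v).testBit y.v = true ↔
      (n.testBit y.v = true ∨ ∃ x : H, n.testBit x.v = true ∧ x * h = y) := by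
  decide +kernel

lemma S_mul {n : ℕ} (hn : n < 256) (h0 : n.testBit 0 = true) (h : H) :
    S n * (pr h).1 = S (stp n h.v) := by
  ext y
  show _ ↔ (stp n h.v).testBit y.v = true
  rw [(stp_spec n hn h0 h).2.2 y]
  constructor
  · rintro ⟨x, hx, _, (rfl | rfl), rfl⟩
    · left; simp only [mul_one]; exact hx
    · exact Or.inr ⟨x, hx, rfl⟩
  · rintro (hy | ⟨x, hx, rfl⟩)
    · exact ⟨y, hy, 1, by simp [pr], by simp⟩
    · exact ⟨x, hx, h, by simp [pr], rfl⟩

lemma S_one : S 1 = 1 := by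
  ext y
  rw [Set.mem_one]
  show (1 : ℕ).testBit y.v = true ↔ _
  revert y; decide

lemma S_inj {n m : ℕ} (hn : n < 256) (hm : m < 256) (h : S n = S m) : n = m := by
  apply Nat.eq_of_testBit_eq
  intro i
  by_cases hi : i < 8
  · have := Set.ext_iff.1 h ⟨⟨i, hi⟩⟩
    exact Bool.eq_iff_iff.2 this
  · have h1 : (256 : ℕ) ≤ 2 ^ i := Nat.pow_le_pow_right (n := 2) (by norm_num) (not_lt.1 hi)
    rw [Nat.testBit_lt_two_pow (hn.trans_le h1), Nat.testBit_lt_two_pow (hm.trans_le h1)]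

lemma S_surj (X : Set H) : ∃ n < 256, X = S n := by
  classical
  have key : ∀ a b c d e f g h : Bool, ∃ n < 256, ∀ i : Fin 8,
      Nat.testBit n i = ![a, b, c, d, e, f, g, h] i := by decide +kernel
  obtain ⟨n, hn, h⟩ := key (decide (⟨0⟩ ∈ X)) (decide (⟨1⟩ ∈ X)) (decide (⟨2⟩ ∈ X))
    (decide (⟨3⟩ ∈ X)) (decide (⟨4⟩ ∈ X)) (decide (⟨5⟩ ∈ X)) (decide (⟨6⟩ ∈ X)) (decide (⟨7⟩ ∈ X))
  refine ⟨n, hn, ?_⟩
  ext ⟨i⟩
  show _ ↔ n.testBit i = true
  rw [h]
  fin_cases i <;> simp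

def pw (l : List H) : ℕ := l.foldl (fun n h => stp n h.v) 1

lemma fold_spec (l : List H) {n : ℕ} (hn : n < 256) (h0 : n.testBit 0 = true) :
    l.foldl (fun n h => stp n h.v) n < 256 ∧
      S n * ((l.map pr).prod).1 = S (l.foldl (fun n h => stp n h.v) n) := by
  induction l generalizing n with
  | nil => exact ⟨hn, by simp⟩
  | cons h l ih =>
    obtain ⟨h1, h2, -⟩ := stp_spec n hn h0 h
    refine ⟨(ih h1 h2).1, ?_⟩
    rw [List.map_cons, List.prod_cons, Submonoid.coe_mul, ← mul_assoc, S_mul hn h0, (ih h1 h2).2]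
    rfl

lemma prod_eq_iff {k m : ℕ} (f : Fin k → H) (g : Fin m → H) :
    (List.ofFn (pr ∘ f)).prod = (List.ofFn (pr ∘ g)).prod ↔ pw (List.ofFn f) = pw (List.ofFn g) := by
  have h1 := fold_spec (List.ofFn f) (n := 1) (by norm_num) rfl
  have h2 := fold_spec (List.ofFn g) (n := 1) (by norm_num) rfl
  rw [S_one, one_mul, List.map_ofFn] at h1 h2
  rw [Subtype.ext_iff, h1.2, h2.2]
  exact ⟨S_inj h1.1 h2.1, fun h => congrArg S h⟩

set_option synthInstance.maxSize 2048 in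
lemma irred_cases {X : powOne H} (hX : Irred X) : ∃ h, h ≠ 1 ∧ X = pr h := by
  have key : ∀ n < 256, n.testBit 0 = true → n = 1 ∨ (∃ h : H, h ≠ 1 ∧ n = stp 1 h.v) ∨
      ∃ h : H, h ≠ 1 ∧ stp 1 h.v ≠ n ∧ ∃ m < 256, m.testBit 0 = true ∧ m ≠ 1 ∧ m ≠ n ∧
        stp m h.v = n := by decide +kernel
  obtain ⟨n, hn, hS⟩ := S_surj X.1
  have h0 : n.testBit 0 = true := by have := X.2.2; rw [hS] at this; exact this
  have hpr : ∀ h : H, (pr h).1 = S (stp 1 h.v) := fun h => by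
    rw [← S_mul (by norm_num) rfl, S_one, one_mul]
  rcases key n hn h0 with rfl | ⟨h, h1, rfl⟩ | ⟨h, h1, h2, m, hm, hm0, hm1, hmn, h3⟩
  · exact absurd (by rw [show X = 1 from Subtype.ext (hS.trans S_one)]; exact dv_refl _) hX.1
  · exact ⟨h, h1, Subtype.ext (hS.trans (hpr h).symm)⟩
  · exfalso
    let b : powOne H := ⟨S m, Set.toFinite _, hm0⟩
    have hbc : X = b * pr h := Subtype.ext (by rw [hS, ← h3]; exact (S_mul hm hm0 h).symm)
    have hb : Dv b X := ⟨1, pr h, by simpa using hbc⟩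
    have hc : Dv (pr h) X := ⟨b, 1, by simpa using hbc⟩
    refine hX.2 ⟨b, pr h, hbc, ⟨hb, fun h' => hmn (S_inj hm hn ?_)⟩, ⟨hc, fun h' => h2 ?_⟩,
      fun h' => hm1 (S_inj hm (by norm_num) ?_), (irred_pr h1).1⟩
    · exact (congrArg Subtype.val (eq_of_dv hb h')).trans hS
    · refine S_inj (stp_spec 1 (by norm_num) rfl h).1 hn ?_
      rw [← hpr, ← hS, eq_of_dv hc h']
    · exact (congrArg Subtype.val (eq_one_of_dv h')).trans S_one.symm

lemma isMin_iff {m : ℕ} (f : Fin m → H) (hf : ∀ i, f i ≠ 1) :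
    IsMinFact (pr ∘ f) (List.ofFn (pr ∘ f)).prod ↔ ∀ k < m, ∀ τ : Fin k → Fin m,
      Function.Injective τ → pw (List.ofFn (f ∘ τ)) ≠ pw (List.ofFn f) := by
  constructor
  · intro h k hk τ hτ he
    exact h.2 ⟨k, hk, pr ∘ (f ∘ τ), ⟨fun i => irred_pr (hf _), (prod_eq_iff _ _).2 he⟩, τ, hτ,
      fun i => ⟨dv_refl _, dv_refl _⟩⟩
  · intro h
    refine ⟨⟨fun i => irred_pr (hf i), rfl⟩, ?_⟩
    rintro ⟨k, hk, α, hα, τ, hτ, h1⟩
    have : α = pr ∘ (f ∘ τ) := funext fun i => eq_of_dv (h1 i).1 (h1 i).2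
    subst this
    exact h k hk τ hτ ((prod_eq_iff _ _).1 hα.2)

lemma min_cases {m : ℕ} {X : powOne H} (h : m ∈ minLengths X) : ∃ f : Fin m → H,
    X = (List.ofFn (pr ∘ f)).prod ∧ ∀ k < m, ∀ τ : Fin k → Fin m,
      Function.Injective τ → pw (List.ofFn (f ∘ τ)) ≠ pw (List.ofFn f) := by
  obtain ⟨a, ha⟩ := h
  choose f hf1 hf using fun i => irred_cases (ha.1.1 i)
  have : a = pr ∘ f := funext hf
  subst this
  refine ⟨f, ha.1.2.symm, (isMin_iff f hf1).1 ?_⟩
  rw [ha.1.2]; exact ha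

lemma five : ∀ a b c d e : H, pw [a, b, c, d, e] = 95 ∨ pw [a, b, c, d, e] = 175 ∨
    pw [a, b, c, d, e] ∈ [pw [a, b, c, e], pw [a, c, d, e], pw [a, b, c, d], pw [b, d, a, e],
      pw [a, d, b, e], pw [b, c, e, a], pw [b, c, d, a], pw [d, e, b, a], pw [b, e, a, d],
      pw [b, c, d, e], pw [a, c, b, d], pw [b, d, a, c], pw [a, b, d, e]] := by
  decide +kernel

lemma four : ∀ a b c d : H, (pw [a, b, c, d] = 95 ∨ pw [a, b, c, d] = 175) →
    pw [a, b, c, d] ∈ [pw [a, c, d], pw [a, b, c], pw [b, c, a], pw [a, c, b], pw [b, c, d],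
      pw [a, b, d]] := by
  decide +kernel

lemma not_four : 4 ∉ minUnion (powOne H) 5 := by
  rintro ⟨X, h5, h4⟩
  obtain ⟨f, hf, hf'⟩ := min_cases h5
  obtain ⟨g, hg, hg'⟩ := min_cases h4
  have h1 := (prod_eq_iff f g).1 (hf.symm.trans hg)
  have e5 : List.ofFn f = [f 0, f 1, f 2, f 3, f 4] := by simp [List.ofFn_succ]
  have e4 : List.ofFn g = [g 0, g 1, g 2, g 3] := by simp [List.ofFn_succ]
  have k5 : ∀ i j k l : Fin 5, Function.Injective ![i, j, k, l] →
      pw [f 0, f 1, f 2, f 3, f 4] ≠ pw [f i, f j, f k, f l] := by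
    intro i j k l h
    have := hf' 4 (by norm_num) _ h
    rw [e5] at this
    simpa [List.ofFn_succ, eq_comm] using this
  have k4 : ∀ i j k : Fin 4, Function.Injective ![i, j, k] →
      pw [g 0, g 1, g 2, g 3] ≠ pw [g i, g j, g k] := by
    intro i j k h
    have := hg' 3 (by norm_num) _ h
    rw [e4] at this
    simpa [List.ofFn_succ, eq_comm] using this
  rw [e5, e4] at h1
  have h2 : pw [f 0, f 1, f 2, f 3, f 4] = 95 ∨ pw [f 0, f 1, f 2, f 3, f 4] = 175 := by
    rcases five (f 0) (f 1) (f 2) (f 3) (f 4) with h | h | h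
    · exact Or.inl h
    · exact Or.inr h
    · simp only [List.mem_cons, List.not_mem_nil, or_false] at h
      rcases h with h | h | h | h | h | h | h | h | h | h | h | h | h <;>
        exact absurd h (k5 _ _ _ _ (by decide))
  rw [h1] at h2
  have h := four _ _ _ _ h2
  simp only [List.mem_cons, List.not_mem_nil, or_false] at h
  rcases h with h | h | h | h | h | h <;> exact absurd h (k4 _ _ _ (by decide))

/-- A monoid `H` and `k ≥ 1` such that the union of the sets of minimal lengths that contain `k`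
in the reduced finitary power monoid of `H` is not an interval. -/
theorem result : ∃ (H : Type) (_ : Monoid H) (k : ℕ), 1 ≤ k ∧
    ¬ (minUnion (powOne H) k).OrdConnected := by
  refine ⟨H, inferInstance, 5, by norm_num, fun h => not_four ?_⟩
  let f : Fin 5 → H := ![⟨1⟩, ⟨1⟩, ⟨1⟩, ⟨4⟩, ⟨6⟩]
  let g : Fin 3 → H := ![⟨1⟩, ⟨4⟩, ⟨2⟩]
  have h5 : 5 ∈ minLengths (List.ofFn (pr ∘ f)).prod :=
    ⟨pr ∘ f, (isMin_iff f (by decide)).2 (by decide +kernel)⟩
  have h3 : 3 ∈ minLengths (List.ofFn (pr ∘ f)).prod := by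
    rw [(prod_eq_iff f g).2 (by decide +kernel)]
    exact ⟨pr ∘ g, (isMin_iff g (by decide)).2 (by decide +kernel)⟩
  exact h.out (x := 3) ⟨_, h5, h3⟩ (y := 5) ⟨_, h5, h5⟩ ⟨by norm_num, by norm_num⟩

end Pool.Agent.Results.MP_43520b_al.MinGap
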